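import Mathlib

open Set Filter Topology
open scoped ENNReal

namespace Pool.Agent.Results.MP_6d1e65_an.Strongest

/-- distance distribution functions -/
structure DDF where
  f : ℝ≥0∞ → ℝ
  mono : Monotone f
  zero : f 0 = 0
  top : f ⊤ = 1
  lc : ∀ x, 0 < x → x < ⊤ → ContinuousWithinAt f (Iio x) x

/-- `F` is the unit step `ε_a` -/
def IsEps (a : ℝ≥0∞) (F : DDF) : Prop := ∀ x < ⊤, F.f x = if x ≤ a then 0 else 1

structure IsTriangle (τ : DDF → DDF → DDF) : Prop where
  comm : ∀ F G, τ F G = τ G F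
  assoc : ∀ F G H, τ (τ F G) H = τ F (τ G H)
  mono : ∀ F F' G, F.f ≤ F'.f → (τ F G).f ≤ (τ F' G).f
  unit : ∀ E F, IsEps 0 E → τ E F = F

/-- every simple space `(S, d, G)` is a PM space under `τ` -/
def Universal (τ : DDF → DDF → DDF) : Prop :=
  ∀ (S : Type) [EMetricSpace S] (G : DDF), ¬ IsEps 0 G → ¬ IsEps ⊤ G →
    ∀ F : S → S → DDF, (∀ p q, ∀ x < ⊤, (F p q).f x = G.f (x / edist p q)) →
      ∀ p q r, (τ (F p q) (F q r)).f ≤ (F p r).f

noncomputable def tauM (F G : DDF) (x : ℝ≥0∞) : ℝ :=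
  sSup {t | ∃ u v, u + v = x ∧ t = min (F.f u) (G.f v)}

lemma DDF.nonneg (F : DDF) (x : ℝ≥0∞) : 0 ≤ F.f x := F.zero ▸ F.mono bot_le
lemma DDF.le_one (F : DDF) (x : ℝ≥0∞) : F.f x ≤ 1 := F.top ▸ F.mono le_top

lemma DDF.le_of_lt (F : DDF) {x : ℝ≥0∞} (h0 : 0 < x) (h1 : x < ⊤) {s : ℝ}
    (h : ∀ y < x, F.f y ≤ s) : F.f x ≤ s := by
  have : (𝓝[<] x).NeBot := nhdsLT_neBot_of_exists_lt ⟨0, h0⟩
  exact le_of_tendsto (F.lc x h0 h1) (eventually_nhdsWithin_of_forall h)

noncomputable def eps0 : DDF where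
  f x := if x ≤ 0 then 0 else 1
  mono x y h := by
    dsimp only
    split_ifs with h1 h2 h2
    · exact le_rfl
    · exact zero_le_one
    · exact absurd (h.trans h2) h1
    · exact le_rfl
  zero := by simp
  top := by simp
  lc x h0 _ := by
    refine (continuousAt_const (y := (1 : ℝ))).continuousWithinAt.congr_of_eventuallyEq ?_
      (by simp [h0.ne'])
    filter_upwards [nhdsWithin_le_nhds (lt_mem_nhds h0)] with y hy
    simp [hy.ne']

noncomputable def scale (F : DDF) (c : ℝ≥0∞) (h0 : c ≠ 0) (h1 : c ≠ ⊤) : DDF where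
  f x := F.f (x * c)
  mono x y h := F.mono (by gcongr)
  zero := by simp [F.zero]
  top := by simp [h0, F.top]
  lc x a b := by
    refine ContinuousWithinAt.comp (f := fun x => x * c) (t := Iio (x * c))
      (F.lc _ (ENNReal.mul_pos a.ne' h0) (ENNReal.mul_lt_top b h1.lt_top))
      (ENNReal.continuous_mul_const h1).continuousWithinAt fun y hy => ?_
    exact ENNReal.mul_lt_mul_left h0 h1 hy

noncomputable def mx (F G : DDF) : DDF where
  f x := max (F.f x) (G.f x)
  mono x y h := max_le_max (F.mono h) (G.mono h)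
  zero := by simp [F.zero, G.zero]
  top := by simp [F.top, G.top]
  lc x a b := (F.lc x a b).max (G.lc x a b)

open Classical in
noncomputable def simple (G : DDF) (p q : ℝ) : DDF :=
  if h : p = q then eps0 else
    scale G (edist p q)⁻¹ (by simp [edist_ne_top]) (by simpa using h)

lemma simple_f (G : DDF) (p q : ℝ) (x : ℝ≥0∞) : (simple G p q).f x = G.f (x / edist p q) := by
  unfold simple
  split_ifs with h
  · subst h
    by_cases hx : x = 0
    · simp [eps0, hx, G.zero]
    · simp [eps0, hx, ENNReal.div_zero hx, G.top]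
  · rfl

theorem result (τ : DDF → DDF → DDF) (hτ : IsTriangle τ) (hU : Universal τ) (F G : DDF)
    (x : ℝ≥0∞) : (τ F G).f x ≤ tauM F G x := by
  set s := tauM F G x with hs
  have hb : ∀ u v, u + v = x → min (F.f u) (G.f v) ≤ s := fun u v h =>
    le_csSup ⟨1, by rintro _ ⟨u, v, -, rfl⟩; exact (min_le_left _ _).trans (F.le_one u)⟩
      ⟨u, v, h, rfl⟩
  have s0 : 0 ≤ s := (le_min (F.nonneg 0) (G.nonneg x)).trans (hb 0 x (zero_add x))
  have he : ∀ H : DDF, H.f ≤ eps0.f := fun H y => by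
    by_cases hy : y = 0
    · simp [eps0, hy, H.zero]
    · simpa [eps0, hy] using H.le_one y
  have l1 : ∀ H K : DDF, (τ H K).f ≤ K.f := fun H K => by
    have := hτ.mono H eps0 K (he H)
    rwa [hτ.unit eps0 K fun _ _ => rfl] at this
  have l2 : (τ F G).f ≤ F.f := by rw [hτ.comm]; exact l1 G F
  rcases eq_or_ne x ⊤ with rfl | hx
  · have := hb ⊤ ⊤ (by simp)
    rw [F.top, G.top, min_self] at this
    exact ((τ F G).le_one _).trans this
  set u := sSup {u | u ≤ x ∧ F.f u ≤ s} with hu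
  have u1 : u ≤ x := sSup_le fun _ h => h.1
  have ut : u ≠ ⊤ := ne_top_of_le_ne_top hx u1
  have u2 : F.f u ≤ s := by
    rcases eq_or_ne u 0 with h | h
    · rw [h, F.zero]; exact s0
    refine F.le_of_lt (pos_iff_ne_zero.2 h) ut.lt_top fun y hy => ?_
    obtain ⟨z, hz, hyz⟩ := lt_sSup_iff.1 hy
    exact (F.mono hyz.le).trans hz.2
  rcases eq_or_lt_of_le u1 with h | hux
  · exact (l2 x).trans (h ▸ u2)
  set v := x - u with hv
  have huv : u + v = x := add_tsub_cancel_of_le u1
  have v0 : v ≠ 0 := (tsub_pos_of_lt hux).ne'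
  have vt : v ≠ ⊤ := ne_top_of_le_ne_top hx tsub_le_self
  have v2 : G.f v ≤ s := by
    refine G.le_of_lt (pos_iff_ne_zero.2 v0) vt.lt_top fun y hy => ?_
    have y1 : y ≤ x := hy.le.trans tsub_le_self
    have y2 : u < x - y := by
      rw [lt_tsub_iff_right, ← huv]; exact ENNReal.add_lt_add_left ut hy
    have y3 : ¬ F.f (x - y) ≤ s := fun h => absurd (le_sSup (s := {u | u ≤ x ∧ F.f u ≤ s})
      ⟨tsub_le_self, h⟩) (not_le.2 y2)
    have := hb (x - y) y (tsub_add_cancel_of_le y1)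
    rcases min_le_iff.1 this with h | h
    · exact absurd h y3
    · exact h
  rcases eq_or_ne u 0 with u0 | u0
  · rw [u0, zero_add] at huv
    exact (l1 F G x).trans (huv ▸ v2)
  set H := mx (scale F u u0 ut) (scale G v v0 vt) with hH
  have H1 : H.f 1 ≤ s := by simp only [hH, mx, scale, one_mul]; exact max_le u2 v2
  have HF : ∀ y, F.f y ≤ H.f (y / u) := fun y => by
    simp only [hH, mx, scale, ENNReal.div_mul_cancel u0 ut]; exact le_max_left _ _
  have HG : ∀ y, G.f y ≤ H.f (y / v) := fun y => by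
    simp only [hH, mx, scale, ENNReal.div_mul_cancel v0 vt]; exact le_max_right _ _
  by_cases e0 : IsEps 0 H
  · rw [e0 1 (by simp)] at H1
    exact ((τ F G).le_one _).trans (by simpa using H1)
  by_cases e1 : IsEps ⊤ H
  · have := HF x
    rw [e1 _ (ENNReal.div_lt_top hx u0)] at this
    exact (l2 x).trans (le_trans (by simpa using this) s0)
  have key := hU ℝ H e0 e1 (simple H) (fun p q x _ => simple_f H p q x) u.toReal 0 (-v.toReal) x
  have d1 : edist u.toReal 0 = u := by
    rw [edist_dist, Real.dist_eq, sub_zero, abs_of_nonneg ENNReal.toReal_nonneg,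
      ENNReal.ofReal_toReal ut]
  have d2 : edist 0 (-v.toReal) = v := by
    rw [edist_dist, Real.dist_eq, zero_sub, neg_neg, abs_of_nonneg ENNReal.toReal_nonneg,
      ENNReal.ofReal_toReal vt]
  have d3 : edist u.toReal (-v.toReal) = x := by
    rw [edist_dist, Real.dist_eq, sub_neg_eq_add, ← ENNReal.toReal_add ut vt, huv,
      abs_of_nonneg ENNReal.toReal_nonneg, ENNReal.ofReal_toReal hx]
  rw [simple_f H _ (-v.toReal) x, d3, ENNReal.div_self (ne_zero_of_lt hux) hx] at key
  have m1 := hτ.mono F (simple H u.toReal 0) G (fun y => by rw [simple_f, d1]; exact HF y) x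
  have m2 := hτ.mono G (simple H 0 (-v.toReal)) (simple H u.toReal 0)
    (fun y => by rw [simple_f, d2]; exact HG y) x
  rw [hτ.comm G, hτ.comm (simple H 0 _)] at m2
  linarith

end Pool.Agent.Results.MP_6d1e65_an.Strongest
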